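import Mathlib

/-!
# Inequivalent bracketings of BKR powers of one set can all have distinct values

For every `r ≥ 1` we construct a finite nonempty set `S`, some `d ≥ 1` and a set `A ⊆ S ^ d` such
that any two inequivalent bracketings of `A ^ r` have different values.
-/

namespace Pool.Agent.Results.MP_2d934b_pr.AllDistinct

/-- The cylinder `[x]_K`: all points of `S ^ ι` agreeing with `x` on the coordinates in `K`. -/
def cyl {ι S : Type*} (x : ι → S) (K : Set ι) : Set (ι → S) := {y | ∀ i ∈ K, y i = x i}

/-- The binary BKR product `A □ B` of subsets of `S ^ ι`. -/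
def box {ι S : Type*} (A B : Set (ι → S)) : Set (ι → S) :=
  {x | ∃ K L : Set ι, K ∩ L = ∅ ∧ cyl x K ⊆ A ∧ cyl x L ⊆ B}

/-- Bracketings: full binary trees (every leaf carries the same set `A`). -/
inductive Br : Type
  | leaf : Br
  | node : Br → Br → Br

/-- The number of leaves of a bracketing. -/
def Br.leaves : Br → ℕ
  | .leaf => 1
  | .node l r => l.leaves + r.leaves

/-- The value of a bracketing: apply the BKR product at each internal node. -/
def Br.value {ι S : Type*} (A : Set (ι → S)) : Br → Set (ι → S)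
  | .leaf => A
  | .node l r => box (l.value A) (r.value A)

/-- Two bracketings are equivalent if one is obtained from the other by swapping the two
subtrees at some of the internal nodes. -/
inductive Br.Equivalent : Br → Br → Prop
  | leaf : Br.Equivalent .leaf .leaf
  | node {l l' r r' : Br} : Br.Equivalent l l' → Br.Equivalent r r' →
      Br.Equivalent (.node l r) (.node l' r')
  | swap {l l' r r' : Br} : Br.Equivalent l l' → Br.Equivalent r r' →
      Br.Equivalent (.node l r) (.node r' l')

/-! ### Transfer of the index set -/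

lemma box_transfer {ι κ S : Type*} (e : ι ≃ κ) (A B : Set (ι → S)) :
    box {y : κ → S | y ∘ e ∈ A} {y : κ → S | y ∘ e ∈ B} = {y : κ → S | y ∘ e ∈ box A B} := by
  ext y
  constructor
  · rintro ⟨K, L, hKL, hK, hL⟩
    have key : ∀ (K : Set κ) (A : Set (ι → S)), cyl y K ⊆ {y : κ → S | y ∘ e ∈ A} →
        cyl (y ∘ e) (e ⁻¹' K) ⊆ A := by
      intro K A hK z hz
      have h1 : z ∘ e.symm ∈ cyl y K := by
        intro i hi
        have := hz (e.symm i) (by simpa using hi)
        simpa using this
      have h2 := hK h1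
      have h3 : (z ∘ e.symm) ∘ e = z := by ext i; simp
      simpa only [Set.mem_ofPred_eq, h3] using h2
    refine ⟨e ⁻¹' K, e ⁻¹' L, ?_, key K A hK, key L B hL⟩
    rw [← Set.preimage_inter, hKL, Set.preimage_empty]
  · rintro ⟨K, L, hKL, hK, hL⟩
    have key : ∀ (K : Set ι) (A : Set (ι → S)), cyl (y ∘ e) K ⊆ A →
        cyl y (e.symm ⁻¹' K) ⊆ {y : κ → S | y ∘ e ∈ A} := by
      intro K A hK z hz
      apply hK
      intro i hi
      have := hz (e i) (by simpa using hi)
      simpa using this
    refine ⟨e.symm ⁻¹' K, e.symm ⁻¹' L, ?_, key K A hK, key L B hL⟩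
    rw [← Set.preimage_inter, hKL, Set.preimage_empty]

lemma value_transfer {ι κ S : Type*} (e : ι ≃ κ) (A : Set (ι → S)) (t : Br) :
    t.value {y : κ → S | y ∘ e ∈ A} = {y : κ → S | y ∘ e ∈ t.value A} := by
  induction t with
  | leaf => rfl
  | node l r ihl ihr => simp only [Br.value]; rw [ihl, ihr, box_transfer]

/-! ### Combinatorics of trees -/

lemma leaves_pos (t : Br) : 0 < t.leaves := by
  induction t with
  | leaf => simp [Br.leaves]
  | node l r ihl ihr => simp only [Br.leaves]; omega

lemma finite_leaves (r : ℕ) : {t : Br | t.leaves = r}.Finite := by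
  induction r using Nat.strong_induction_on with
  | _ r ih =>
    have h : {t : Br | t.leaves = r} ⊆ {Br.leaf} ∪
        ⋃ i ∈ Finset.range r, ⋃ j ∈ Finset.range r,
          Set.image2 Br.node {t : Br | t.leaves = i} {t : Br | t.leaves = j} := by
      intro t ht
      cases t with
      | leaf => left; rfl
      | node l s =>
        right
        simp only [Set.mem_ofPred_eq, Br.leaves] at ht
        have h1 := leaves_pos l
        have h2 := leaves_pos s
        simp only [Set.mem_iUnion]
        exact ⟨l.leaves, Finset.mem_range.2 (by omega), s.leaves,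
          Finset.mem_range.2 (by omega), l, rfl, s, rfl, rfl⟩
    refine Set.Finite.subset ?_ h
    refine (Set.finite_singleton _).union ?_
    refine Set.Finite.biUnion (Finset.finite_toSet _) fun i hi => ?_
    refine Set.Finite.biUnion (Finset.finite_toSet _) fun j hj => ?_
    exact (ih i (by simpa using hi)).image2 _ (ih j (by simpa using hj))

/-- Membership in the interval of `m` labels starting at `n`. -/
def InI (n m k : ℕ) : Prop := n ≤ k ∧ k < n + m

/-- `disp t n a b c`: in the tree `t`, whose leaves are labelled `n, n + 1, ...` from left to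
right, the labels `a` and `b` meet strictly below the point where they meet `c`. -/
def disp : Br → ℕ → ℕ → ℕ → ℕ → Prop
  | .leaf, _, _, _, _ => False
  | .node l r, n, a, b, c =>
      (InI n l.leaves a ∧ InI n l.leaves b ∧ InI (n + l.leaves) r.leaves c) ∨
      (InI (n + l.leaves) r.leaves a ∧ InI (n + l.leaves) r.leaves b ∧ InI n l.leaves c) ∨
      disp l n a b c ∨ disp r (n + l.leaves) a b c

lemma disp_inI {t : Br} : ∀ {n a b c : ℕ}, disp t n a b c →
    InI n t.leaves a ∧ InI n t.leaves b ∧ InI n t.leaves c := by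
  induction t with
  | leaf => intro n a b c h; exact h.elim
  | node l r ihl ihr =>
    intro n a b c h
    simp only [disp] at h
    simp only [InI, Br.leaves] at *
    rcases h with h | h | h | h
    · omega
    · omega
    · have := ihl h; omega
    · have := ihr h; omega

lemma disp_symm {t : Br} : ∀ {n a b c : ℕ}, disp t n a b c → disp t n b a c := by
  induction t with
  | leaf => intro n a b c h; exact h.elim
  | node l r ihl ihr =>
    intro n a b c h
    simp only [disp] at h ⊢
    rcases h with ⟨h1, h2, h3⟩ | ⟨h1, h2, h3⟩ | h | h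
    · exact Or.inl ⟨h2, h1, h3⟩
    · exact Or.inr (Or.inl ⟨h2, h1, h3⟩)
    · exact Or.inr (Or.inr (Or.inl (ihl h)))
    · exact Or.inr (Or.inr (Or.inr (ihr h)))

/-- `Sub T t n`: the tree `t` is the subtree of `T` (labelled from `0`) whose leaves are labelled
`n, ..., n + t.leaves - 1`. -/
inductive Sub (T : Br) : Br → ℕ → Prop
  | refl : Sub T T 0
  | left {l r : Br} {n : ℕ} : Sub T (.node l r) n → Sub T l n
  | right {l r : Br} {n : ℕ} : Sub T (.node l r) n → Sub T r (n + l.leaves)

lemma Sub.le {T t : Br} {n : ℕ} (h : Sub T t n) : n + t.leaves ≤ T.leaves := by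
  induction h with
  | refl => simp
  | left _ ih => simp only [Br.leaves] at ih; omega
  | right _ ih => simp only [Br.leaves] at ih; omega

lemma Sub.disp_of {T t : Br} {n : ℕ} (h : Sub T t n) : ∀ {a b c : ℕ}, disp t n a b c →
    disp T 0 a b c := by
  induction h with
  | refl => exact fun h => h
  | left _ ih => intro a b c h; apply ih; simp only [disp]; exact Or.inr (Or.inr (Or.inl h))
  | right _ ih => intro a b c h; apply ih; simp only [disp]; exact Or.inr (Or.inr (Or.inr h))

/-- A cluster of `T` containing `c` and one of `a`, `b`, where `ab|c` is displayed by `T`,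
displays `ab|c` itself. -/
lemma Sub.restrict {T t : Br} {n : ℕ} (h : Sub T t n) : ∀ {a b c : ℕ}, disp T 0 a b c →
    (InI n t.leaves a ∨ InI n t.leaves b) → InI n t.leaves c → disp t n a b c := by
  induction h with
  | refl => exact fun h _ _ => h
  | @left l r n _ ih =>
    intro a b c h hab hc
    have h1 := ih h (by simp only [InI, Br.leaves] at *; omega)
      (by simp only [InI, Br.leaves] at *; omega)
    simp only [disp] at h1
    rcases h1 with h1 | h1 | h1 | h1
    · simp only [InI] at *; omega
    · simp only [InI] at *; omega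
    · exact h1
    · have := disp_inI h1; simp only [InI] at *; omega
  | @right l r n _ ih =>
    intro a b c h hab hc
    have h1 := ih h (by simp only [InI, Br.leaves] at *; omega)
      (by simp only [InI, Br.leaves] at *; omega)
    simp only [disp] at h1
    rcases h1 with h1 | h1 | h1 | h1
    · simp only [InI] at *; omega
    · simp only [InI] at *; omega
    · have := disp_inI h1; simp only [InI] at *; omega
    · exact h1

/-! ### The construction -/

section construction

variable {r : ℕ}

/-- Tags: the trees with `r` leaves. -/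
abbrev Tag (r : ℕ) : Type := {t : Br // t.leaves = r}

/-- Coordinates: one label coordinate for every label, and four gadget coordinates for every
triple of labels. -/
abbrev Coord (r : ℕ) : Type := Fin r ⊕ (Fin r × Fin r × Fin r × Fin 4)

/-- The condition that a leaf using label `k` with tag `T` has to satisfy. -/
def Cond (T : Tag r) (k : Fin r) (y : Coord r → Option (Tag r)) : Prop :=
  ∀ a b c : Fin r, disp T.1 0 a b c →
    (k = a → y (.inr (a, b, c, 0)) = some T ∧
      (y (.inr (a, b, c, 3)) = some T ∨ y (.inr (a, b, c, 1)) = some T)) ∧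
    (k = b → y (.inr (a, b, c, 2)) = some T ∧
      (y (.inr (a, b, c, 1)) = some T ∨ y (.inr (a, b, c, 3)) ≠ some T)) ∧
    (k = c → y (.inr (a, b, c, 3)) = some T)

/-- The set `A` of the construction. -/
def setA (r : ℕ) : Set (Coord r → Option (Tag r)) :=
  {y | ∃ (T : Tag r) (k : Fin r), y (.inl k) = some T ∧ Cond T k y}

/-- The invariant of the winning strategy at the subtree with labels `n, ..., n + m - 1`. -/
def Inv (T : Tag r) (n m : ℕ) (y : Coord r → Option (Tag r)) : Prop :=
  (∀ k : Fin r, InI n m k → y (.inl k) = some T) ∧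
  ∀ a b c : Fin r, disp T.1 0 a b c →
    (InI n m a → InI n m b → InI n m c → y (.inr (a, b, c, 0)) = some T ∧
      y (.inr (a, b, c, 1)) = some T ∧ y (.inr (a, b, c, 2)) = some T ∧
      y (.inr (a, b, c, 3)) = some T) ∧
    (InI n m a → InI n m b → y (.inr (a, b, c, 0)) = some T ∧
      y (.inr (a, b, c, 1)) = some T ∧ y (.inr (a, b, c, 2)) = some T) ∧
    (InI n m a → ¬ InI n m b → y (.inr (a, b, c, 0)) = some T ∧
      (y (.inr (a, b, c, 3)) = some T ∨ y (.inr (a, b, c, 1)) = some T)) ∧
    (InI n m b → ¬ InI n m a → y (.inr (a, b, c, 2)) = some T ∧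
      (y (.inr (a, b, c, 1)) = some T ∨ y (.inr (a, b, c, 3)) ≠ some T)) ∧
    (InI n m c → ¬ InI n m a → ¬ InI n m b → y (.inr (a, b, c, 3)) = some T)

/-- The coordinates given to the child with label predicate `L`, the other child having label
predicate `R`. -/
def give (T : Tag r) (L R : ℕ → Prop) (y : Coord r → Option (Tag r)) : Set (Coord r) :=
  fun i => match i with
  | .inl k => L k
  | .inr (a, b, c, j) =>
    (j = 0 → L a) ∧ (j = 2 → L b) ∧
    (j = 3 → L c ∨ (¬ R c ∧ ((L a ∧ ¬ R b) ∨ (L b ∧ ¬ R a) ∨
      (L a ∧ R b ∧ y (.inr (a, b, c, 3)) = some T) ∨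
      (L b ∧ R a ∧ y (.inr (a, b, c, 3)) ≠ some T)))) ∧
    (j = 1 → (L a ∧ ¬ R b) ∨ (L b ∧ ¬ R a) ∨
      (L a ∧ R b ∧ y (.inr (a, b, c, 3)) ≠ some T) ∨
      (L b ∧ R a ∧ y (.inr (a, b, c, 3)) = some T))

lemma aux_one {La Lb Ra Rb P : Prop} (ha : La → Ra → False) (hb : Lb → Rb → False)
    (h1 : (La ∧ ¬ Rb) ∨ (Lb ∧ ¬ Ra) ∨ (La ∧ Rb ∧ ¬ P) ∨ (Lb ∧ Ra ∧ P))
    (h2 : (Ra ∧ ¬ Lb) ∨ (Rb ∧ ¬ La) ∨ (Ra ∧ Lb ∧ ¬ P) ∨ (Rb ∧ La ∧ P)) : False := by
  by_cases La <;> by_cases Ra <;> by_cases Lb <;> by_cases Rb <;> by_cases P <;> simp_all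

lemma aux_three {La Lb Lc Ra Rb Rc P : Prop} (ha : La → Ra → False) (hb : Lb → Rb → False)
    (hc : Lc → Rc → False)
    (h1 : Lc ∨ (¬ Rc ∧ ((La ∧ ¬ Rb) ∨ (Lb ∧ ¬ Ra) ∨ (La ∧ Rb ∧ P) ∨ (Lb ∧ Ra ∧ ¬ P))))
    (h2 : Rc ∨ (¬ Lc ∧ ((Ra ∧ ¬ Lb) ∨ (Rb ∧ ¬ La) ∨ (Ra ∧ Lb ∧ P) ∨ (Rb ∧ La ∧ ¬ P)))) :
    False := by
  by_cases La <;> by_cases Ra <;> by_cases Lb <;> by_cases Rb <;> by_cases P <;>
    by_cases Lc <;> by_cases Rc <;> simp_all

lemma give_disjoint (T : Tag r) (L R : ℕ → Prop) (h : ∀ k, L k → R k → False)
    (y : Coord r → Option (Tag r)) : give T L R y ∩ give T R L y = ∅ := by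
  ext i
  simp only [Set.mem_inter_iff, Set.mem_empty_iff_false, iff_false, not_and]
  rcases i with k | ⟨a, b, c, j⟩
  · exact fun h1 h2 => h k h1 h2
  · intro h1 h2
    obtain ⟨h10, h12, h13, h11⟩ := h1
    obtain ⟨h20, h22, h23, h21⟩ := h2
    have ha := h a
    have hb := h b
    have hc := h c
    fin_cases j
    · exact ha (h10 rfl) (h20 rfl)
    · exact aux_one ha hb (h11 rfl) (h21 rfl)
    · exact hb (h12 rfl) (h22 rfl)
    · exact aux_three ha hb hc (h13 rfl) (h23 rfl)

/-- The key step: the invariant passes to the child with label predicate `L`. -/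
lemma inv_step (T : Tag r) {n m n₁ m₁ n₂ m₂ : ℕ}
    (hI : ∀ k, InI n m k ↔ InI n₁ m₁ k ∨ InI n₂ m₂ k)
    (hdisj : ∀ k, InI n₁ m₁ k → InI n₂ m₂ k → False)
    (hQ : ∀ a b c : ℕ, disp T.1 0 a b c → (InI n m a ∨ InI n m b) → InI n m c →
      InI n m a ∧ InI n m b)
    (hQ1 : ∀ a b c : ℕ, disp T.1 0 a b c → (InI n₁ m₁ a ∨ InI n₁ m₁ b) → InI n₁ m₁ c →
      InI n₁ m₁ a ∧ InI n₁ m₁ b)
    (hQ2 : ∀ a b c : ℕ, disp T.1 0 a b c → (InI n₂ m₂ a ∨ InI n₂ m₂ b) → InI n₂ m₂ c →
      InI n₂ m₂ a ∧ InI n₂ m₂ b)
    {y z : Coord r → Option (Tag r)} (hy : Inv T n m y)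
    (hz : z ∈ cyl y (give T (InI n₁ m₁) (InI n₂ m₂) y)) : Inv T n₁ m₁ z := by
  obtain ⟨hy1, hy2⟩ := hy
  refine ⟨?_, ?_⟩
  · intro k hk
    rw [hz (.inl k) hk]
    exact hy1 k ((hI k).2 (Or.inl hk))
  · intro a b c habc
    have hya := hy2 a b c habc
    have hQ := hQ a b c habc
    have hQ1 := hQ1 a b c habc
    have hQ2 := hQ2 a b c habc
    have hIa := hI a
    have hIb := hI b
    have hIc := hI c
    have hda := hdisj a
    have hdb := hdisj b
    have hdc := hdisj c
    have z0 : InI n₁ m₁ a → z (.inr (a, b, c, 0)) = y (.inr (a, b, c, 0)) := fun h =>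
      hz _ ⟨fun _ => h, fun h => absurd h (by decide), fun h => absurd h (by decide),
        fun h => absurd h (by decide)⟩
    have z2 : InI n₁ m₁ b → z (.inr (a, b, c, 2)) = y (.inr (a, b, c, 2)) := fun h =>
      hz _ ⟨fun h => absurd h (by decide), fun _ => h, fun h => absurd h (by decide),
        fun h => absurd h (by decide)⟩
    have z3 : (InI n₁ m₁ c ∨ (¬ InI n₂ m₂ c ∧ ((InI n₁ m₁ a ∧ ¬ InI n₂ m₂ b) ∨
        (InI n₁ m₁ b ∧ ¬ InI n₂ m₂ a) ∨
        (InI n₁ m₁ a ∧ InI n₂ m₂ b ∧ y (.inr (a, b, c, 3)) = some T) ∨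
        (InI n₁ m₁ b ∧ InI n₂ m₂ a ∧ y (.inr (a, b, c, 3)) ≠ some T)))) →
        z (.inr (a, b, c, 3)) = y (.inr (a, b, c, 3)) := fun h =>
      hz _ ⟨fun h => absurd h (by decide), fun h => absurd h (by decide), fun _ => h,
        fun h => absurd h (by decide)⟩
    have z1 : ((InI n₁ m₁ a ∧ ¬ InI n₂ m₂ b) ∨ (InI n₁ m₁ b ∧ ¬ InI n₂ m₂ a) ∨
        (InI n₁ m₁ a ∧ InI n₂ m₂ b ∧ y (.inr (a, b, c, 3)) ≠ some T) ∨
        (InI n₁ m₁ b ∧ InI n₂ m₂ a ∧ y (.inr (a, b, c, 3)) = some T)) →
        z (.inr (a, b, c, 1)) = y (.inr (a, b, c, 1)) := fun h =>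
      hz _ ⟨fun h => absurd h (by decide), fun h => absurd h (by decide),
        fun h => absurd h (by decide), fun _ => h⟩
    obtain ⟨y1, y2, y3, y4, y5⟩ := hya
    refine ⟨?_, ?_, ?_, ?_, ?_⟩
    · intro ha hb hc
      have hna : ¬ InI n₂ m₂ a := fun h => hda ha h
      have hnb : ¬ InI n₂ m₂ b := fun h => hdb hb h
      obtain ⟨e0, e1, e2, e3⟩ := y1 (hIa.2 (Or.inl ha)) (hIb.2 (Or.inl hb)) (hIc.2 (Or.inl hc))
      rw [z0 ha, z1 (Or.inl ⟨ha, hnb⟩), z2 hb, z3 (Or.inl hc)]
      exact ⟨e0, e1, e2, e3⟩
    · intro ha hb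
      have hna : ¬ InI n₂ m₂ a := fun h => hda ha h
      have hnb : ¬ InI n₂ m₂ b := fun h => hdb hb h
      obtain ⟨e0, e1, e2⟩ := y2 (hIa.2 (Or.inl ha)) (hIb.2 (Or.inl hb))
      rw [z0 ha, z1 (Or.inl ⟨ha, hnb⟩), z2 hb]
      exact ⟨e0, e1, e2⟩
    · intro ha hb
      rw [z0 ha]
      by_cases hb2 : InI n₂ m₂ b
      · obtain ⟨e0, e1, e2⟩ := y2 (hIa.2 (Or.inl ha)) (hIb.2 (Or.inr hb2))
        refine ⟨e0, ?_⟩
        have hc2 : ¬ InI n₂ m₂ c := fun hc => hda ha (hQ2 (Or.inr hb2) hc).1
        by_cases h3 : y (.inr (a, b, c, 3)) = some T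
        · left
          rw [z3 (Or.inr ⟨hc2, Or.inr (Or.inr (Or.inl ⟨ha, hb2, h3⟩))⟩)]
          exact h3
        · right
          rw [z1 (Or.inr (Or.inr (Or.inl ⟨ha, hb2, h3⟩)))]
          exact e1
      · have hbI : ¬ InI n m b := fun h => (hIb.1 h).elim hb hb2
        obtain ⟨e0, e1⟩ := y3 (hIa.2 (Or.inl ha)) hbI
        have hcI : ¬ InI n m c := fun h => hbI (hQ (Or.inl (hIa.2 (Or.inl ha))) h).2
        have hc2 : ¬ InI n₂ m₂ c := fun hc => hcI (hIc.2 (Or.inr hc))
        refine ⟨e0, ?_⟩
        rw [z1 (Or.inl ⟨ha, hb2⟩), z3 (Or.inr ⟨hc2, Or.inl ⟨ha, hb2⟩⟩)]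
        exact e1
    · intro hb ha
      rw [z2 hb]
      by_cases ha2 : InI n₂ m₂ a
      · obtain ⟨e0, e1, e2⟩ := y2 (hIa.2 (Or.inr ha2)) (hIb.2 (Or.inl hb))
        refine ⟨e2, ?_⟩
        have hc2 : ¬ InI n₂ m₂ c := fun hc => hdb hb (hQ2 (Or.inl ha2) hc).2
        by_cases h3 : y (.inr (a, b, c, 3)) = some T
        · left
          rw [z1 (Or.inr (Or.inr (Or.inr ⟨hb, ha2, h3⟩)))]
          exact e1
        · right
          rw [z3 (Or.inr ⟨hc2, Or.inr (Or.inr (Or.inr ⟨hb, ha2, h3⟩))⟩)]
          exact h3
      · have haI : ¬ InI n m a := fun h => (hIa.1 h).elim ha ha2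
        obtain ⟨e2, e1⟩ := y4 (hIb.2 (Or.inl hb)) haI
        have hcI : ¬ InI n m c := fun h => haI (hQ (Or.inr (hIb.2 (Or.inl hb))) h).1
        have hc2 : ¬ InI n₂ m₂ c := fun hc => hcI (hIc.2 (Or.inr hc))
        refine ⟨e2, ?_⟩
        rw [z1 (Or.inr (Or.inl ⟨hb, ha2⟩)), z3 (Or.inr ⟨hc2, Or.inr (Or.inl ⟨hb, ha2⟩)⟩)]
        exact e1
    · intro hc ha hb
      rw [z3 (Or.inl hc)]
      by_cases hab : InI n m a ∨ InI n m b
      · obtain ⟨ha', hb'⟩ := hQ hab (hIc.2 (Or.inl hc))
        exact (y1 ha' hb' (hIc.2 (Or.inl hc))).2.2.2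
      · push Not at hab
        exact y5 (hIc.2 (Or.inl hc)) hab.1 hab.2

/-- The positive part: the strategy following `T` wins. -/
lemma mem_value (T : Tag r) {t : Br} : ∀ {n : ℕ}, Sub T.1 t n →
    ∀ y : Coord r → Option (Tag r), Inv T n t.leaves y → y ∈ t.value (setA r) := by
  induction t with
  | leaf =>
    intro n hS y hy
    have hle := hS.le
    have hn : n < r := by rw [T.2] at hle; simp only [Br.leaves] at hle; omega
    obtain ⟨hy1, hy2⟩ := hy
    refine ⟨T, ⟨n, hn⟩, hy1 ⟨n, hn⟩ ⟨le_rfl, by simp [Br.leaves]⟩, ?_⟩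
    intro a b c habc
    obtain ⟨y1, y2, y3, y4, y5⟩ := hy2 a b c habc
    have hin : InI n Br.leaf.leaves n := ⟨le_rfl, by simp [Br.leaves]⟩
    refine ⟨?_, ?_, ?_⟩
    · rintro rfl
      by_cases hb : InI n Br.leaf.leaves b
      · obtain ⟨e0, e1, e2⟩ := y2 hin hb
        exact ⟨e0, Or.inr e1⟩
      · exact y3 hin hb
    · rintro rfl
      by_cases ha : InI n Br.leaf.leaves a
      · obtain ⟨e0, e1, e2⟩ := y2 ha hin
        exact ⟨e2, Or.inl e1⟩
      · exact y4 hin ha
    · rintro rfl
      by_cases hab : InI n Br.leaf.leaves a ∨ InI n Br.leaf.leaves b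
      · exact (hS.restrict habc hab hin).elim
      · push Not at hab
        exact y5 hin hab.1 hab.2
  | node l s ihl ihs =>
    intro n hS y hy
    have hSl := hS.left
    have hSs := hS.right
    have hQ : ∀ a b c : ℕ, disp T.1 0 a b c →
        (InI n (Br.node l s).leaves a ∨ InI n (Br.node l s).leaves b) →
        InI n (Br.node l s).leaves c →
        InI n (Br.node l s).leaves a ∧ InI n (Br.node l s).leaves b := fun a b c h1 h2 h3 =>
      ⟨(disp_inI (hS.restrict h1 h2 h3)).1, (disp_inI (hS.restrict h1 h2 h3)).2.1⟩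
    have hQ1 : ∀ a b c : ℕ, disp T.1 0 a b c →
        (InI n l.leaves a ∨ InI n l.leaves b) → InI n l.leaves c →
        InI n l.leaves a ∧ InI n l.leaves b := fun a b c h1 h2 h3 =>
      ⟨(disp_inI (hSl.restrict h1 h2 h3)).1, (disp_inI (hSl.restrict h1 h2 h3)).2.1⟩
    have hQ2 : ∀ a b c : ℕ, disp T.1 0 a b c →
        (InI (n + l.leaves) s.leaves a ∨ InI (n + l.leaves) s.leaves b) →
        InI (n + l.leaves) s.leaves c →
        InI (n + l.leaves) s.leaves a ∧ InI (n + l.leaves) s.leaves b := fun a b c h1 h2 h3 =>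
      ⟨(disp_inI (hSs.restrict h1 h2 h3)).1, (disp_inI (hSs.restrict h1 h2 h3)).2.1⟩
    refine ⟨give T (InI n l.leaves) (InI (n + l.leaves) s.leaves) y,
      give T (InI (n + l.leaves) s.leaves) (InI n l.leaves) y,
      give_disjoint T _ _ (fun k h1 h2 => by simp only [InI] at *; omega) y, ?_, ?_⟩
    · intro z hz
      refine ihl hSl z (inv_step T ?_ ?_ hQ hQ1 hQ2 hy hz)
      · intro k; simp only [InI, Br.leaves]; omega
      · intro k; simp only [InI]; omega
    · intro z hz
      refine ihs hSs z (inv_step T ?_ ?_ hQ hQ2 hQ1 hy hz)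
      · intro k; simp only [InI, Br.leaves]; omega
      · intro k; simp only [InI]; omega

/-! ### The negative part -/

/-- The set of labels present in `y`. -/
noncomputable def labels (y : Coord r → Option (Tag r)) : Finset (Fin r) := by
  classical exact Finset.univ.filter fun k => y (.inl k) ≠ none

lemma mem_labels {y : Coord r → Option (Tag r)} {k : Fin r} :
    k ∈ labels y ↔ y (.inl k) ≠ none := by
  classical
  simp [labels]

/-- Erase all labels not in `K`. -/
noncomputable def erase (y : Coord r → Option (Tag r)) (K : Set (Coord r)) :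
    Coord r → Option (Tag r) := by
  classical exact fun i => match i with
  | .inl k => if .inl k ∈ K then y (.inl k) else none
  | .inr g => y (.inr g)

lemma erase_mem_cyl (y : Coord r → Option (Tag r)) (K : Set (Coord r)) : erase y K ∈ cyl y K := by
  classical
  intro i hi
  rcases i with k | g
  · simp only [erase]; rw [if_pos hi]
  · rfl

lemma mem_labels_erase {y : Coord r → Option (Tag r)} {K : Set (Coord r)} {k : Fin r} :
    k ∈ labels (erase y K) ↔ k ∈ labels y ∧ (Sum.inl k : Coord r) ∈ K := by
  classical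
  rw [mem_labels, mem_labels]
  simp only [erase]
  split_ifs with h <;> simp [h]

lemma labels_erase_card {y : Coord r → Option (Tag r)} {K L : Set (Coord r)} (h : K ∩ L = ∅) :
    Disjoint (labels (erase y K)) (labels (erase y L)) ∧
    labels (erase y K) ∪ labels (erase y L) ⊆ labels y := by
  constructor
  · rw [Finset.disjoint_left]
    intro k h1 h2
    rw [mem_labels_erase] at h1 h2
    have : (Sum.inl k : Coord r) ∈ K ∩ L := ⟨h1.2, h2.2⟩
    rw [h] at this
    exact this
  · intro k hk
    rw [Finset.mem_union, mem_labels_erase, mem_labels_erase] at hk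
    rcases hk with hk | hk <;> exact hk.1

/-- A point in the value of `t` has at least `t.leaves` labels. -/
lemma count (t : Br) : ∀ y : Coord r → Option (Tag r), y ∈ t.value (setA r) →
    t.leaves ≤ (labels y).card := by
  classical
  induction t with
  | leaf =>
    rintro y ⟨T, k, hk, -⟩
    have : k ∈ labels y := by rw [mem_labels, hk]; simp
    exact Finset.card_pos.2 ⟨k, this⟩
  | node l s ihl ihs =>
    rintro y ⟨K, L, hKL, hK, hL⟩
    have h1 := ihl _ (hK (erase_mem_cyl y K))
    have h2 := ihs _ (hL (erase_mem_cyl y L))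
    obtain ⟨h3, h4⟩ := labels_erase_card (y := y) hKL
    have h5 := Finset.card_le_card h4
    rw [Finset.card_union_of_disjoint h3] at h5
    simp only [Br.leaves]
    omega

lemma cond_congr {T : Tag r} {k : Fin r} {y z : Coord r → Option (Tag r)}
    (h : ∀ g, y (.inr g) = z (.inr g)) (hy : Cond T k y) : Cond T k z := by
  intro a b c habc
  have := hy a b c habc
  simpa only [h] using this

/-- If `y` has exactly `t.leaves` labels, all tagged `T`, and is in the value of `t`, then `y`
satisfies the conditions of all its labels. -/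
lemma cond_of_mem (T : Tag r) (t : Br) : ∀ y : Coord r → Option (Tag r), y ∈ t.value (setA r) →
    (labels y).card = t.leaves → (∀ k ∈ labels y, y (.inl k) = some T) →
    ∀ k ∈ labels y, Cond T k y := by
  classical
  induction t with
  | leaf =>
    rintro y ⟨T', k', hk', hc⟩ hcard htag k hk
    have hk'' : k' ∈ labels y := by rw [mem_labels, hk']; simp
    have h1 : (labels y).card ≤ 1 := by rw [hcard]; simp [Br.leaves]
    have h2 : k = k' := Finset.card_le_one.1 h1 k hk k' hk''
    have h3 : T' = T := by
      have := htag k' hk''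
      rw [hk'] at this
      exact Option.some_injective _ this
    subst h2 h3
    exact hc
  | node l s ihl ihs =>
    rintro y ⟨K, L, hKL, hK, hL⟩ hcard htag k hk
    have h1 := count l _ (hK (erase_mem_cyl y K))
    have h2 := count s _ (hL (erase_mem_cyl y L))
    obtain ⟨h3, h4⟩ := labels_erase_card (y := y) hKL
    have h5 := Finset.card_le_card h4
    rw [Finset.card_union_of_disjoint h3] at h5
    simp only [Br.leaves] at hcard
    have h6 : labels (erase y K) ∪ labels (erase y L) = labels y := by
      apply Finset.eq_of_subset_of_card_le h4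
      rw [Finset.card_union_of_disjoint h3]
      omega
    have htag' : ∀ K : Set (Coord r), ∀ k ∈ labels (erase y K),
        erase y K (.inl k) = some T := by
      intro K k hk
      rw [mem_labels_erase] at hk
      simp only [erase]
      rw [if_pos hk.2]
      exact htag k hk.1
    rw [← h6, Finset.mem_union] at hk
    rcases hk with hk | hk
    · exact cond_congr (fun g => rfl) (ihl _ (hK (erase_mem_cyl y K)) (by omega) (htag' K) k hk)
    · exact cond_congr (fun g => rfl) (ihs _ (hL (erase_mem_cyl y L)) (by omega) (htag' L) k hk)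

/-- The point with labels `C`, tagged `T`, and all gadget coordinates equal to `T`. -/
noncomputable def pt (T : Tag r) (C : Set (Fin r)) : Coord r → Option (Tag r) := by
  classical exact fun i => match i with
  | .inl k => if k ∈ C then some T else none
  | .inr _ => some T

lemma pt_inl {T : Tag r} {C : Set (Fin r)} {k : Fin r} :
    pt T C (.inl k) ≠ none ↔ k ∈ C := by
  classical
  simp [pt]

lemma pt_tag {T : Tag r} {C : Set (Fin r)} {k : Fin r} (h : pt T C (.inl k) ≠ none) :
    pt T C (.inl k) = some T := by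
  classical
  rw [pt_inl] at h
  simp [pt, h]

/-- Restrict `y` to `K`, with `none` elsewhere. -/
noncomputable def restr (y : Coord r → Option (Tag r)) (K : Set (Coord r)) :
    Coord r → Option (Tag r) := by
  classical exact fun i => if i ∈ K then y i else none

lemma restr_mem_cyl (y : Coord r → Option (Tag r)) (K : Set (Coord r)) : restr y K ∈ cyl y K := by
  classical
  intro i hi
  simp only [restr]; rw [if_pos hi]

lemma restr_eq_some {y : Coord r → Option (Tag r)} {K : Set (Coord r)} {i : Coord r} {T : Tag r}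
    (h : restr y K i = some T) : i ∈ K := by
  classical
  by_contra hi
  simp only [restr] at h
  rw [if_neg hi] at h
  exact absurd h (by simp)

/-- The gadget of a displayed triple `ab|c` forbids separating `a` from `b, c`. -/
lemma gadget (T : Tag r) {C : Set (Fin r)} {K L : Set (Coord r)} (hKL : K ∩ L = ∅)
    {l s : Br} (hK : cyl (pt T C) K ⊆ l.value (setA r)) (hL : cyl (pt T C) L ⊆ s.value (setA r))
    (hl : (labels (restr (pt T C) K)).card = l.leaves)
    (hs : (labels (restr (pt T C) L)).card = s.leaves)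
    {a b c : Fin r} (habc : disp T.1 0 a b c)
    (ha : a ∈ labels (restr (pt T C) K)) (hb : b ∈ labels (restr (pt T C) L))
    (hc : c ∈ labels (restr (pt T C) L)) : False := by
  classical
  have htag : ∀ K : Set (Coord r), ∀ k ∈ labels (restr (pt T C) K),
      restr (pt T C) K (.inl k) = some T := by
    intro K k hk
    rw [mem_labels] at hk
    by_cases hkK : (Sum.inl k : Coord r) ∈ K
    · simp only [restr] at hk ⊢
      rw [if_pos hkK] at hk ⊢
      exact pt_tag hk
    · simp only [restr] at hk
      rw [if_neg hkK] at hk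
      exact absurd rfl hk
  have h1 := ((cond_of_mem T l _ (hK (restr_mem_cyl _ K)) hl (htag K) a ha) a b c habc).1 rfl
  have h2 := ((cond_of_mem T s _ (hL (restr_mem_cyl _ L)) hs (htag L) b hb) a b c habc).2.1 rfl
  have h3 := ((cond_of_mem T s _ (hL (restr_mem_cyl _ L)) hs (htag L) c hc) a b c habc).2.2 rfl
  have h4 : (Sum.inr (a, b, c, 3) : Coord r) ∈ L := restr_eq_some h3
  have h5 : (Sum.inr (a, b, c, 1) : Coord r) ∈ L := by
    rcases h2.2 with h | h
    · exact restr_eq_some h
    · exact absurd h3 h
  rcases h1.2 with h | h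
  · have : (Sum.inr (a, b, c, 3) : Coord r) ∈ K ∩ L := ⟨restr_eq_some h, h4⟩
    rw [hKL] at this
    exact this
  · have : (Sum.inr (a, b, c, 1) : Coord r) ∈ K ∩ L := ⟨restr_eq_some h, h5⟩
    rw [hKL] at this
    exact this

lemma card_interval (n m : ℕ) (h : n + m ≤ r) (C : Finset (Fin r))
    (hC : ∀ k : Fin r, k ∈ C ↔ InI n m k) : C.card = m := by
  classical
  have : C.image (fun k : Fin r => (k : ℕ)) = Finset.Ico n (n + m) := by
    ext k
    simp only [Finset.mem_image, Finset.mem_Ico]
    constructor
    · rintro ⟨k, hk, rfl⟩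
      exact (hC k).1 hk
    · rintro ⟨h1, h2⟩
      exact ⟨⟨k, by omega⟩, (hC _).2 ⟨h1, h2⟩, rfl⟩
  have h2 : (C.image (fun k : Fin r => (k : ℕ))).card = C.card :=
    Finset.card_image_of_injective _ Fin.val_injective
  rw [← h2, this, Nat.card_Ico]
  omega

/-- The negative part: only bracketings equivalent to `T` contain the point of `T`. -/
lemma equiv_of_mem (T : Tag r) {v : Br} : ∀ {n : ℕ}, Sub T.1 v n → ∀ t : Br,
    t.leaves = v.leaves → pt T {k | InI n v.leaves k} ∈ t.value (setA r) →
    Br.Equivalent v t := by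
  classical
  induction v with
  | leaf =>
    intro n _ t ht _
    cases t with
    | leaf => exact .leaf
    | node l s =>
      have h1 := leaves_pos l
      have h2 := leaves_pos s
      simp only [Br.leaves] at ht
      omega
  | node p q ihp ihq =>
    intro n hS t ht hmem
    have hle := hS.le
    rw [T.2] at hle
    have hp0 := leaves_pos p
    have hq0 := leaves_pos q
    cases t with
    | leaf => simp only [Br.leaves] at ht; omega
    | node l s =>
      set C : Set (Fin r) := {k | InI n (Br.node p q).leaves k} with hCdef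
      obtain ⟨K, L, hKL, hK, hL⟩ := hmem
      set C1 := labels (restr (pt T C) K) with hC1
      set C2 := labels (restr (pt T C) L) with hC2
      have hlab : ∀ (K : Set (Coord r)) (k : Fin r), k ∈ labels (restr (pt T C) K) ↔
          k ∈ C ∧ (Sum.inl k : Coord r) ∈ K := by
        intro K k
        rw [mem_labels]
        by_cases hkK : (Sum.inl k : Coord r) ∈ K
        · simp only [restr]; rw [if_pos hkK, pt_inl]; simp [hkK]
        · simp only [restr]; rw [if_neg hkK]; simp [hkK]
      have hcount1 : l.leaves ≤ C1.card := count l _ (hK (restr_mem_cyl _ K))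
      have hcount2 : s.leaves ≤ C2.card := count s _ (hL (restr_mem_cyl _ L))
      have hdisj : Disjoint C1 C2 := by
        rw [Finset.disjoint_left]
        intro k h1 h2
        have : (Sum.inl k : Coord r) ∈ K ∩ L := ⟨((hlab K k).1 h1).2, ((hlab L k).1 h2).2⟩
        rw [hKL] at this
        exact this
      let CF : Finset (Fin r) := Finset.univ.filter fun k => k ∈ C
      have hCF : ∀ k, k ∈ CF ↔ InI n (Br.node p q).leaves k := fun k => by simp [CF, C]
      have hCFcard := card_interval n _ (by simpa using hle) CF hCF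
      have hsub : C1 ∪ C2 ⊆ CF := by
        intro k hk
        rw [Finset.mem_union] at hk
        rw [hCF]
        rcases hk with hk | hk
        · exact ((hlab K k).1 hk).1
        · exact ((hlab L k).1 hk).1
      have hcard := Finset.card_le_card hsub
      rw [Finset.card_union_of_disjoint hdisj, hCFcard] at hcard
      simp only [Br.leaves] at ht hcard
      have hC1card : C1.card = l.leaves := by omega
      have hC2card : C2.card = s.leaves := by omega
      have hunion : C1 ∪ C2 = CF := by
        apply Finset.eq_of_subset_of_card_le hsub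
        rw [Finset.card_union_of_disjoint hdisj, hCFcard]
        simp only [Br.leaves]
        omega
      have hmemC : ∀ k : Fin r, InI n (p.leaves + q.leaves) k → k ∈ C1 ∨ k ∈ C2 := by
        intro k hk
        rw [← Finset.mem_union, hunion, hCF]
        exact hk
      have hnot : ∀ k : Fin r, k ∈ C1 → k ∈ C2 → False := fun k h1 h2 =>
        Finset.disjoint_left.1 hdisj h1 h2
      -- displayed pairs stay together
      have htog : ∀ a b c : Fin r, disp T.1 0 a b c → InI n (p.leaves + q.leaves) a →
          InI n (p.leaves + q.leaves) b → InI n (p.leaves + q.leaves) c →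
          a ∈ C1 → b ∈ C1 := by
        intro a b c habc ha hb hc haC
        by_contra hbC
        have hbC2 : b ∈ C2 := (hmemC b hb).resolve_left hbC
        rcases hmemC c hc with hcC | hcC
        · exact gadget T (by rw [Set.inter_comm]; exact hKL) hL hK hC2card hC1card
            (disp_symm habc) hbC2 haC hcC
        · exact gadget T hKL hK hL hC1card hC2card habc haC hbC2 hcC
      have hlt : n + p.leaves < r := by simp only [Br.leaves] at hle; omega
      have hsidep : ∀ a b : Fin r, InI n p.leaves a → InI n p.leaves b → a ∈ C1 → b ∈ C1 := by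
        intro a b ha hb haC
        refine htog a b ⟨n + p.leaves, hlt⟩ (hS.disp_of ?_) ?_ ?_ ?_ haC
        · simp only [disp]
          left
          refine ⟨ha, hb, ?_⟩
          simp only [InI]; omega
        all_goals simp only [InI] at *; omega
      have hsideq : ∀ a b : Fin r, InI (n + p.leaves) q.leaves a → InI (n + p.leaves) q.leaves b →
          a ∈ C1 → b ∈ C1 := by
        intro a b ha hb haC
        refine htog a b ⟨n, by omega⟩ (hS.disp_of ?_) ?_ ?_ ?_ haC
        · simp only [disp]
          right; left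
          refine ⟨ha, hb, ?_⟩
          simp only [InI]; omega
        all_goals simp only [InI] at *; omega
      have hl0 := leaves_pos l
      have hs0 := leaves_pos s
      obtain ⟨a1, ha1⟩ : C1.Nonempty := Finset.card_pos.1 (by omega)
      obtain ⟨a2, ha2⟩ : C2.Nonempty := Finset.card_pos.1 (by omega)
      have ha1I : InI n (p.leaves + q.leaves) a1 := ((hlab K a1).1 ha1).1
      have ha2I : InI n (p.leaves + q.leaves) a2 := ((hlab L a2).1 ha2).1
      have hsplit : ∀ k : ℕ, InI n (p.leaves + q.leaves) k → InI n p.leaves k ∨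
          InI (n + p.leaves) q.leaves k := by
        intro k hk; simp only [InI] at *; omega
      have hsplit' : ∀ k : ℕ, InI n p.leaves k → InI (n + p.leaves) q.leaves k → False := by
        intro k hk; simp only [InI] at *; omega
      have hpI : ∀ k : ℕ, InI n p.leaves k → InI n (p.leaves + q.leaves) k := by
        intro k hk; simp only [InI] at *; omega
      have hqI : ∀ k : ℕ, InI (n + p.leaves) q.leaves k → InI n (p.leaves + q.leaves) k := by
        intro k hk; simp only [InI] at *; omega
      -- points of the children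
      have hpt : ∀ (K : Set (Coord r)) (D : Set (Fin r)),
          (∀ k, k ∈ labels (restr (pt T C) K) ↔ k ∈ D) → pt T D ∈ cyl (pt T C) K := by
        intro K D hD i hi
        rcases i with k | g
        · have h1 := hD k
          rw [hlab K k] at h1
          have h2 : k ∈ C ↔ k ∈ D := by
            constructor
            · exact fun h => h1.1 ⟨h, hi⟩
            · exact fun h => (h1.2 h).1
          simp only [pt, h2]
        · rfl
      rcases hsplit a1 ha1I with h1 | h1
      · -- `C1` is the cluster of `p`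
        have hC1p : ∀ k : Fin r, k ∈ C1 ↔ k ∈ {k : Fin r | InI n p.leaves k} := by
          intro k
          constructor
          · intro hk
            rcases hsplit k ((hlab K k).1 hk).1 with h | h
            · exact h
            · exfalso
              rcases hsplit a2 ha2I with h' | h'
              · exact hnot a2 (hsidep a1 a2 h1 h' ha1) ha2
              · exact hnot a2 (hsideq k a2 h h' hk) ha2
          · exact fun hk => hsidep a1 k h1 hk ha1
        have hC2q : ∀ k : Fin r, k ∈ C2 ↔ k ∈ {k : Fin r | InI (n + p.leaves) q.leaves k} := by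
          intro k
          constructor
          · intro hk
            rcases hsplit k ((hlab L k).1 hk).1 with h | h
            · exact (hnot k ((hC1p k).2 h) hk).elim
            · exact h
          · intro hk
            rcases hmemC k (hqI k hk) with h | h
            · exact (hsplit' k ((hC1p k).1 h) hk).elim
            · exact h
        have e1 : l.leaves = p.leaves := by
          rw [← hC1card]
          exact card_interval n _ (by omega) C1 hC1p
        have e2 : s.leaves = q.leaves := by omega
        exact .node (ihp hS.left l e1 (hK (hpt K _ hC1p))) (ihq hS.right s e2 (hL (hpt L _ hC2q)))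
      · -- `C1` is the cluster of `q`
        have hC1q : ∀ k : Fin r, k ∈ C1 ↔ k ∈ {k : Fin r | InI (n + p.leaves) q.leaves k} := by
          intro k
          constructor
          · intro hk
            rcases hsplit k ((hlab K k).1 hk).1 with h | h
            · exfalso
              rcases hsplit a2 ha2I with h' | h'
              · exact hnot a2 (hsidep k a2 h h' hk) ha2
              · exact hnot a2 (hsideq a1 a2 h1 h' ha1) ha2
            · exact h
          · exact fun hk => hsideq a1 k h1 hk ha1
        have hC2p : ∀ k : Fin r, k ∈ C2 ↔ k ∈ {k : Fin r | InI n p.leaves k} := by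
          intro k
          constructor
          · intro hk
            rcases hsplit k ((hlab L k).1 hk).1 with h | h
            · exact h
            · exact (hnot k ((hC1q k).2 h) hk).elim
          · intro hk
            rcases hmemC k (hpI k hk) with h | h
            · exact (hsplit' k hk ((hC1q k).1 h)).elim
            · exact h
        have e1 : s.leaves = p.leaves := by
          rw [← hC2card]
          exact card_interval n _ (by omega) C2 hC2p
        have e2 : l.leaves = q.leaves := by omega
        exact .swap (ihp hS.left s e1 (hL (hpt L _ hC2p))) (ihq hS.right l e2 (hK (hpt K _ hC1q)))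

lemma separated (s t : Br) (hs : s.leaves = r) (ht : t.leaves = r)
    (h : s.value (setA r) = t.value (setA r)) : Br.Equivalent s t := by
  classical
  let T : Tag r := ⟨s, hs⟩
  have h1 : pt T {k | InI 0 s.leaves k} ∈ s.value (setA r) := by
    apply mem_value T (n := 0) Sub.refl
    constructor
    · intro k hk
      apply pt_tag
      rw [pt_inl]
      exact hk
    · intro a b c habc
      have hin := disp_inI habc
      exact ⟨fun _ _ _ => ⟨rfl, rfl, rfl, rfl⟩, fun _ _ => ⟨rfl, rfl, rfl⟩,
        fun _ _ => ⟨rfl, Or.inl rfl⟩, fun _ _ => ⟨rfl, Or.inl rfl⟩, fun _ _ _ => rfl⟩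
  rw [h] at h1
  exact equiv_of_mem T (n := 0) Sub.refl t (by rw [ht]; exact hs.symm) h1

end construction

/-- **Main theorem.** For every `r ≥ 1` (in particular for every `r ≥ 5`) there are a finite
nonempty set `S`, an integer `d ≥ 1` and a set `A ⊆ S ^ d` such that bracketings of `A ^ r` with
equal values are equivalent: the `W_r` equivalence classes of bracketings of `A ^ r` have `W_r`
pairwise distinct values. -/
theorem result (r : ℕ) (hr : 1 ≤ r) :
    ∃ (S : Type) (_ : Finite S) (_ : Nonempty S) (d : ℕ) (_ : 1 ≤ d) (A : Set (Fin d → S)),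
      ∀ s t : Br, s.leaves = r → t.leaves = r → s.value A = t.value A → Br.Equivalent s t := by
  classical
  have hfin : Finite (Tag r) := (finite_leaves r).to_subtype
  let e : Coord r ≃ Fin (Fintype.card (Coord r)) := Fintype.equivFin (Coord r)
  have hd : 1 ≤ Fintype.card (Coord r) := by
    rw [Nat.one_le_iff_ne_zero, ← Nat.pos_iff_ne_zero, Fintype.card_pos_iff]
    exact ⟨.inl ⟨0, hr⟩⟩
  refine ⟨Option (Tag r), inferInstance, ⟨none⟩, Fintype.card (Coord r), hd,
    {y | y ∘ e ∈ setA r}, ?_⟩
  intro s t hs ht h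
  rw [value_transfer, value_transfer] at h
  apply separated s t hs ht
  ext y
  have := Set.ext_iff.1 h (y ∘ e.symm)
  have h3 : (y ∘ e.symm) ∘ e = y := by ext i; simp
  simpa only [Set.mem_ofPred_eq, h3] using this

end Pool.Agent.Results.MP_2d934b_pr.AllDistinct
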